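import Mathlib
import Pool.Agent.H790R4.Main3

/-!
The corona theorem, with uniform bounds, on the unit ball of `ℂ^(n+1)` for `f_1, …, f_K ∈ H^∞(B)`
such that near every boundary point `p` all but one of the `f_k` (the exceptional index may depend
on `p`) are `ε`-close to functions of one variable, namely of the coordinate of the holomorphic
retraction of the ball onto the complex line through `p` and some point `a = a(p)` of the ball.

* `Pool.Agent.H790R4.PB1`, `PB2u`, `PB3`, `PB4`, `PC1u`: the Gleason problem in `H^∞(B)`.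
* `Pool.Agent.H790R4.PA2u`: characters of the algebra of bounded families in `H^∞(B)`.
* `Pool.Agent.H790R4.PD2`: the corona theorem for one variable data and one arbitrary function
  (`Pool.Agent.H720R2.HP`).
* `Pool.Agent.H790R4.PE6`: localization at the boundary points.
-/

set_option autoImplicit false

open Metric Set Filter Topology
open Pool.Agent.H790R4 (Ball lam)

namespace Pool.Agent.Results.MP_ca0fc2_an.CoronaLocalSlice

/-- **Corona theorem on the ball for data close to one variable data near each boundary point**,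
all but one function at each boundary point; with bounds. -/
theorem result (K : ℕ) (δ : ℝ) (hδ : 0 < δ) :
    ∃ ε : ℝ → ℝ, (∀ M, 0 < ε M) ∧ ∀ (n : ℕ) (r ρ M : (Fin (n + 1) → ℂ) → ℝ),
      (∀ p, 0 < r p) → (∀ p, ρ p < 1) → ∃ C : ℝ, ∀ (f : Fin K → (Fin (n + 1) → ℂ) → ℂ),
      (∀ k, DifferentiableOn ℂ (f k) (Ball (n + 1))) →
      (∀ k, ∀ z ∈ Ball (n + 1), ‖f k z‖ ≤ 1) →
      (∀ z ∈ Ball (n + 1), δ ≤ ∑ k, ‖f k z‖) →
      (∀ p : Fin (n + 1) → ℂ, ∑ i, ‖p i‖ ^ 2 = 1 →
        ∃ (j : Fin K) (a : Fin (n + 1) → ℂ) (F : Fin K → ℂ → ℂ), ∑ i, ‖a i‖ ^ 2 ≤ ρ p ∧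
          (∀ k, DifferentiableOn ℂ (F k) (ball 0 1)) ∧
          (∀ k, ∀ x ∈ ball (0 : ℂ) 1, ‖F k x‖ ≤ M p) ∧
          ∀ k, k ≠ j → ∀ z ∈ Ball (n + 1), dist z p < r p →
            ‖f k z - F k (lam a p z)‖ ≤ ε (M p)) →
      ∃ h : Fin K → (Fin (n + 1) → ℂ) → ℂ,
        (∀ k, DifferentiableOn ℂ (h k) (Ball (n + 1))) ∧
        (∀ k, ∀ z ∈ Ball (n + 1), ‖h k z‖ ≤ C) ∧
        ∀ z ∈ Ball (n + 1), ∑ k, f k z * h k z = 1 :=
  Pool.Agent.H790R4.main3 K δ hδ

end Pool.Agent.Results.MP_ca0fc2_an.CoronaLocalSlice
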