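import Mathlib
import Pool.Agent.H720R2.HP.Final

/-!
The corona theorem on the unit ball of `ℂ^(n+1)` for data `f_1(z₀), …, f_N(z₀), G(z)`, where the
`f_i ∈ H^∞(𝔻)` and `G ∈ H^∞(B)` are arbitrary, with constants independent of the dimension, and
for the products of such data along automorphisms of the ball.

* `Pool.Agent.H720R2.HP.Op`: an explicit solution operator of P. Jones type for
  `∂V/∂w̄ = μ(w) / G(w, y)` on the Siegel domain `‖y‖² < Im w`; the kernel transports `1/G` along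
  the holomorphic retractions onto the slices `w = ζ`, so that `V` is bounded and holomorphic in `y`.
* `Pool.Agent.H720R2.HP.Asm`: from cutoff functions with a packed family of gradient regions to
  bounded solutions of the Bezout equation.
* `Pool.Agent.H720R2.HP.{Stop, Tree, Exc, Cut1, CutN}`: Carleson type cutoff functions for several
  bounded holomorphic functions of one variable (stopping time argument, Green's formula).
-/

set_option autoImplicit false

open Metric
open Pool.Agent.H720R2.Cor (Ball IsAutomorphism)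

namespace Pool.Agent.Results.MP_ca0fc2_an.CoronaOneVariable

/-- **Corona theorem on the ball for functions of one coordinate and one arbitrary function.**
(`m = 1`: `f_1((ψ z)₀), …, f_N((ψ z)₀), G(z)`; in general all products with one factor from each of
`m` such families, and `G`.) -/
theorem result (m : ℕ) (N : Fin m → ℕ) (δ : ℝ) (hδ : 0 < δ) :
    ∃ C : ℝ, ∀ (n : ℕ) (ψ : Fin m → (Fin (n + 1) → ℂ) → (Fin (n + 1) → ℂ)),
      (∀ j, IsAutomorphism (ψ j)) → ∀ (f : (j : Fin m) → Fin (N j) → ℂ → ℂ),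
      (∀ j i, DifferentiableOn ℂ (f j i) (ball 0 1)) →
      (∀ j i, ∀ x ∈ ball (0 : ℂ) 1, ‖f j i x‖ ≤ 1) →
      ∀ (G : (Fin (n + 1) → ℂ) → ℂ), DifferentiableOn ℂ G (Ball (n + 1)) →
      (∀ z ∈ Ball (n + 1), ‖G z‖ ≤ 1) →
      (∀ z ∈ Ball (n + 1),
        δ ≤ (∑ ι : (j : Fin m) → Fin (N j), ‖∏ j, f j (ι j) (ψ j z 0)‖) + ‖G z‖) →
      ∃ (g : ((j : Fin m) → Fin (N j)) → (Fin (n + 1) → ℂ) → ℂ) (g₀ : (Fin (n + 1) → ℂ) → ℂ),
        (∀ ι, DifferentiableOn ℂ (g ι) (Ball (n + 1))) ∧ DifferentiableOn ℂ g₀ (Ball (n + 1)) ∧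
        (∀ ι, ∀ z ∈ Ball (n + 1), ‖g ι z‖ ≤ C) ∧ (∀ z ∈ Ball (n + 1), ‖g₀ z‖ ≤ C) ∧
        ∀ z ∈ Ball (n + 1), ∑ ι, (∏ j, f j (ι j) (ψ j z 0)) * g ι z + G z * g₀ z = 1 :=
  Pool.Agent.H720R2.HP.main m N hδ

end Pool.Agent.Results.MP_ca0fc2_an.CoronaOneVariable
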