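import Mathlib
import Pool.Agent.H720R2.Rec

set_option autoImplicit false

/-!
# Lower bounds for the constants in the corona problem in `ℂⁿ`

For every bounded domain `D ⊆ ℂⁿ` (in particular for every strictly pseudoconvex domain) and every
exponent `κ < n + 1`, the best constant in the corona problem on `D`, with `n + 1` generators and lower
bound `δ`, is at least `c δ^{-κ}`. The data are
`f_j = c₁ (z_j - p_j)^{mn}` (`j ≤ n`) and `f_{n+1} = c₁ (ε - ∏ (z_j - p_j))^m`, `p ∈ D`, and the bound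
comes from the Taylor coefficient of `h_{n+1}` at `p` with multi-index `(mn - 1, …, mn - 1)`.
-/

open MeasureTheory Complex Set Function Metric
open Pool.Agent.H720R2

namespace Pool.Agent.Results.MP_ca0fc2_an.ExponentLowerBound

/-- For every bounded nonempty open set `D ⊆ ℂⁿ` and every `κ < n + 1` there are `c, δ₀ > 0` such that
for every `0 < δ < δ₀` there are `n + 1` polynomials `f_j` with `δ² < ∑ |f_j|² ≤ 1` on `D` for which
every holomorphic solution `h` of `∑ f_j h_j = 1` on `D` satisfies `|h_{n+1}(z)| > c δ^{-κ}` at some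
point `z ∈ D`. -/
theorem result (n : ℕ) (hn : 1 ≤ n) (D : Set (Fin n → ℂ)) (hD : IsOpen D) (hne : D.Nonempty)
    (hb : Bornology.IsBounded D) (κ : ℝ) (hκ : κ < n + 1) :
    ∃ c : ℝ, 0 < c ∧ ∃ δ₀ : ℝ, 0 < δ₀ ∧ ∀ δ : ℝ, 0 < δ → δ < δ₀ →
      ∃ f : Fin (n + 1) → MvPolynomial (Fin n) ℂ,
        (∀ z ∈ D, ∑ j, ‖MvPolynomial.eval z (f j)‖ ^ 2 ≤ 1) ∧
        (∀ z ∈ D, δ ^ 2 < ∑ j, ‖MvPolynomial.eval z (f j)‖ ^ 2) ∧
        ∀ h : Fin (n + 1) → (Fin n → ℂ) → ℂ, (∀ j, DifferentiableOn ℂ (h j) D) →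
          (∀ z ∈ D, ∑ j, MvPolynomial.eval z (f j) * h j z = 1) →
          ∃ z ∈ D, c * δ ^ (-κ) < ‖h (Fin.last n) z‖ := by
  obtain ⟨p, hp⟩ := hne
  -- radii
  obtain ⟨r0, hr0, hr0D⟩ := Metric.isOpen_iff.1 hD p hp
  obtain ⟨r, hr, hrr⟩ : ∃ r : ℝ, 0 < r ∧ closedBall p r ⊆ D :=
    ⟨r0 / 2, by positivity, (closedBall_subset_ball (by linarith)).trans hr0D⟩
  obtain ⟨R, hR⟩ : ∃ R : ℝ, ∀ z ∈ D, dist z p ≤ R := by
    obtain ⟨R, hR⟩ := hb.subset_closedBall p
    exact ⟨R, fun z hz => hR hz⟩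
  have hR0 : 0 ≤ R := dist_nonneg.trans (hR p hp)
  have hcoord : ∀ z ∈ D, ∀ j, ‖z j - p j‖ ≤ R := by
    intro z hz j
    have := (dist_pi_le_iff hR0).1 (hR z hz) j
    rwa [dist_eq_norm] at this
  -- the exponent
  obtain ⟨m, hm⟩ : ∃ m : ℕ, 1 / (m : ℝ) < (n + 1 - κ) ∧ 0 < m := by
    obtain ⟨m, hm⟩ := exists_nat_one_div_lt (show (0 : ℝ) < n + 1 - κ by linarith)
    exact ⟨m + 1, by exact_mod_cast hm, by omega⟩
  obtain ⟨hm1, hm0⟩ := hm
  have hmR : (0 : ℝ) < m := by exact_mod_cast hm0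
  set a : ℕ := m * n with ha
  have ha1 : 1 ≤ a := Nat.one_le_iff_ne_zero.2 (by positivity)
  set c₁ : ℝ := 1 / ((n + 1) * (R ^ n + 1) ^ m) with hc₁
  have hB : (0 : ℝ) < (n + 1) * (R ^ n + 1) ^ m := by positivity
  have hc₁0 : 0 < c₁ := by positivity
  have hc₁1 : c₁ ≤ 1 := by
    rw [hc₁, div_le_one hB]
    have h1 : (1 : ℝ) ≤ (R ^ n + 1) ^ m := one_le_pow₀ (by
      have : 0 ≤ R ^ n := by positivity
      linarith)
    have h2 : (1 : ℝ) ≤ n + 1 := by
      have : (0 : ℝ) ≤ n := Nat.cast_nonneg n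
      linarith
    nlinarith
  set E : ℝ := (n : ℝ) + 1 - 1 / m with hE
  have hκE : κ ≤ E := by rw [hE]; linarith
  -- the constants
  set C₀ : ℝ := (r ^ n) ^ (a - 1) * ((2 : ℝ)⁻¹) ^ (a - 1 + m) * (2 / c₁) ^ (-E) with hC₀
  have hC₀0 : 0 < C₀ := by positivity
  refine ⟨C₀ / 2, by positivity, min 1 (c₁ * (2 : ℝ)⁻¹ ^ m / 2), by positivity, ?_⟩
  intro δ hδ hδ'
  have hδ1 : δ < 1 := lt_of_lt_of_le hδ' (min_le_left _ _)
  have hδ2 : δ < c₁ * (2 : ℝ)⁻¹ ^ m / 2 := lt_of_lt_of_le hδ' (min_le_right _ _)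
  set t : ℝ := 2 * δ / c₁ with ht
  have ht0 : 0 < t := by positivity
  have ht1 : t < (2 : ℝ)⁻¹ ^ m := by
    rw [ht, div_lt_iff₀ hc₁0]; linarith
  set ε : ℝ := 2 * t ^ ((1 : ℝ) / m) with hε
  have hε0 : 0 < ε := by positivity
  have hεm : (ε / 2) ^ m = t := by
    rw [hε, mul_div_cancel_left₀ _ (two_ne_zero)]
    rw [← Real.rpow_natCast, ← Real.rpow_mul ht0.le, one_div, inv_mul_cancel₀ hmR.ne',
      Real.rpow_one]
  have hε1 : ε ≤ 1 := by
    by_contra hcon
    push Not at hcon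
    have h1 : (2 : ℝ)⁻¹ < ε / 2 := by
      rw [inv_eq_one_div]; linarith
    have h2 : (2 : ℝ)⁻¹ ^ m < (ε / 2) ^ m := pow_lt_pow_left₀ h1 (by norm_num) hm0.ne'
    rw [hεm] at h2
    linarith
  -- the data
  let fl : MvPolynomial (Fin n) ℂ := MvPolynomial.C (c₁ : ℂ) *
    (MvPolynomial.C (ε : ℂ) - ∏ j, (MvPolynomial.X j - MvPolynomial.C (p j))) ^ m
  let f : Fin (n + 1) → MvPolynomial (Fin n) ℂ := Fin.snoc (α := fun _ => MvPolynomial (Fin n) ℂ)
    (fun j => MvPolynomial.C (c₁ : ℂ) * (MvPolynomial.X j - MvPolynomial.C (p j)) ^ a) fl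
  have hfj : ∀ (j : Fin n) (z : Fin n → ℂ), MvPolynomial.eval z (f j.castSucc) =
      (c₁ : ℂ) * (z j - p j) ^ a := by
    intro j z
    simp [f]
  have hfl : ∀ z : Fin n → ℂ, MvPolynomial.eval z (f (Fin.last n)) =
      (c₁ : ℂ) * ((ε : ℂ) - W p z) ^ m := by
    intro z
    simp [f, fl, W]
  have hsum : ∀ (g : Fin (n + 1) → ℝ), ∑ j, g j = (∑ j : Fin n, g j.castSucc) + g (Fin.last n) :=
    fun g => Fin.sum_univ_castSucc g
  have hnorm_j : ∀ (j : Fin n) (z : Fin n → ℂ), ‖MvPolynomial.eval z (f j.castSucc)‖ =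
      c₁ * ‖z j - p j‖ ^ a := by
    intro j z
    rw [hfj, norm_mul, norm_pow, Complex.norm_real, Real.norm_of_nonneg hc₁0.le]
  have hnorm_l : ∀ z : Fin n → ℂ, ‖MvPolynomial.eval z (f (Fin.last n))‖ =
      c₁ * ‖(ε : ℂ) - W p z‖ ^ m := by
    intro z
    rw [hfl, norm_mul, norm_pow, Complex.norm_real, Real.norm_of_nonneg hc₁0.le]
  have hWn : ∀ z ∈ D, ‖W p z‖ ≤ R ^ n := by
    intro z hz
    rw [W, norm_prod]
    calc ∏ j, ‖z j - p j‖ ≤ ∏ _j : Fin n, R :=
          Finset.prod_le_prod (fun _ _ => norm_nonneg _) fun j _ => hcoord z hz j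
      _ = R ^ n := by simp
  refine ⟨f, ?_, ?_, ?_⟩
  · -- upper bound
    intro z hz
    have hbd : ∀ j, ‖MvPolynomial.eval z (f j)‖ ≤ 1 / (n + 1) := by
      intro j
      have key : c₁ * (R ^ n + 1) ^ m = 1 / (n + 1) := by
        rw [hc₁]
        have : (0 : ℝ) < (R ^ n + 1) ^ m := by positivity
        field_simp
      refine Fin.lastCases ?_ (fun j => ?_) j
      · rw [hnorm_l, ← key]
        gcongr
        calc ‖(ε : ℂ) - W p z‖ ≤ ‖(ε : ℂ)‖ + ‖W p z‖ := norm_sub_le _ _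
          _ ≤ 1 + R ^ n := by
            gcongr
            · rw [Complex.norm_real, Real.norm_of_nonneg hε0.le]; exact hε1
            · exact hWn z hz
          _ = R ^ n + 1 := by ring
      · rw [hnorm_j, ← key]
        gcongr
        calc ‖z j - p j‖ ^ a ≤ R ^ a := by gcongr; exact hcoord z hz j
          _ = (R ^ n) ^ m := by rw [ha, ← pow_mul, mul_comm]
          _ ≤ (R ^ n + 1) ^ m := by gcongr; linarith
    calc ∑ j, ‖MvPolynomial.eval z (f j)‖ ^ 2 ≤ ∑ _j : Fin (n + 1), (1 / ((n : ℝ) + 1)) ^ 2 := by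
          gcongr with j _
          exact hbd j
      _ = 1 / (n + 1) := by
          rw [Finset.sum_const, Finset.card_univ, Fintype.card_fin, nsmul_eq_mul]
          push_cast
          field_simp
      _ ≤ 1 := by
          rw [div_le_one (by positivity)]
          have : (0 : ℝ) ≤ n := Nat.cast_nonneg n
          linarith
  · -- lower bound
    intro z hz
    have hex : ∃ j, c₁ * (ε / 2) ^ m ≤ ‖MvPolynomial.eval z (f j)‖ := by
      by_cases hcase : ‖W p z‖ ≤ ε / 2
      · refine ⟨Fin.last n, ?_⟩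
        rw [hnorm_l]
        gcongr
        have h1 : ‖(ε : ℂ)‖ ≤ ‖(ε : ℂ) - W p z‖ + ‖W p z‖ := by
          have := norm_add_le ((ε : ℂ) - W p z) (W p z)
          simpa using this
        rw [Complex.norm_real, Real.norm_of_nonneg hε0.le] at h1
        linarith
      · push Not at hcase
        have hj : ∃ j : Fin n, ε / 2 ≤ ‖z j - p j‖ ^ n := by
          by_contra hcon
          push Not at hcon
          have h1 : ‖W p z‖ ^ n ≤ (ε / 2) ^ n := by
            rw [W, norm_prod, ← Finset.prod_pow]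
            calc ∏ j, ‖z j - p j‖ ^ n ≤ ∏ _j : Fin n, (ε / 2) :=
                  Finset.prod_le_prod (fun _ _ => by positivity) fun j _ => (hcon j).le
              _ = (ε / 2) ^ n := by
                  rw [Finset.prod_const, Finset.card_univ, Fintype.card_fin]
          have h2 : ‖W p z‖ ≤ ε / 2 :=
            le_of_pow_le_pow_left₀ (by omega) (by positivity) h1
          linarith
        obtain ⟨j, hj⟩ := hj
        refine ⟨j.castSucc, ?_⟩
        rw [hnorm_j]
        gcongr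
        calc (ε / 2) ^ m ≤ (‖z j - p j‖ ^ n) ^ m := by gcongr
          _ = ‖z j - p j‖ ^ a := by rw [ha, ← pow_mul, mul_comm]
    obtain ⟨j, hj⟩ := hex
    have h1 : c₁ * (ε / 2) ^ m = 2 * δ := by
      rw [hεm, ht]
      field_simp
    rw [h1] at hj
    calc δ ^ 2 < (2 * δ) ^ 2 := by nlinarith
      _ ≤ ‖MvPolynomial.eval z (f j)‖ ^ 2 := by gcongr
      _ ≤ _ := Finset.single_le_sum (f := fun j => ‖MvPolynomial.eval z (f j)‖ ^ 2)
          (fun _ _ => by positivity) (Finset.mem_univ j)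
  · -- lower bound for the solutions
    intro h hh hsol
    by_contra hcon
    push Not at hcon
    set M : ℝ := C₀ / 2 * δ ^ (-κ) with hM
    set H : (Fin n → ℂ) → ℂ := h (Fin.last n) with hH
    have hHc := continuous_comp_torusMap hr hrr (hh (Fin.last n))
    have hk : ∀ k < a, (c₁ : ℂ) * Lc p r k (fun z => ((ε : ℂ) - W p z) ^ m * H z) =
        if k = 0 then 1 else 0 := by
      intro k hka
      have hterm : ∀ j : Fin n, Lc p r k (fun z => (z j - p j) ^ a * h j.castSucc z) = 0 :=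
        fun j => Lc_mul_pow_eq_zero hr hka j hD hrr (hh j.castSucc)
      have hcj : ∀ j : Fin n, Continuous fun θ =>
          (torusMap p (fun _ => r) θ j - p j) ^ a * h j.castSucc (torusMap p (fun _ => r) θ) := by
        intro j
        exact ((((continuous_apply j).comp (continuous_torusMap p r)).sub continuous_const).pow a).mul
          (continuous_comp_torusMap hr hrr (hh j.castSucc))
      have hcl : Continuous fun θ => ((ε : ℂ) - W p (torusMap p (fun _ => r) θ)) ^ m *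
          H (torusMap p (fun _ => r) θ) :=
        ((continuous_const.sub (continuous_W_torusMap p r)).pow m).mul hHc
      have e1 : Lc p r k (fun _ => (1 : ℂ)) = Lc p r k (fun z =>
          (∑ j : Fin n, (c₁ : ℂ) * ((z j - p j) ^ a * h j.castSucc z)) +
            (c₁ : ℂ) * (((ε : ℂ) - W p z) ^ m * H z)) := by
        apply Lc_congr hr
        intro θ
        have h1 := hsol _ (hrr (torusMap_mem_closedBall p hr.le θ))
        rw [Fin.sum_univ_castSucc, hfl] at h1
        rw [← h1]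
        congr 1
        · refine Finset.sum_congr rfl fun j _ => ?_
          rw [hfj]; ring
        · ring
      rw [Lc_add hr k (F := fun z => ∑ j : Fin n, (c₁ : ℂ) * ((z j - p j) ^ a * h j.castSucc z))
        (G := fun z => (c₁ : ℂ) * (((ε : ℂ) - W p z) ^ m * H z))
        (continuous_finset_sum _ fun j _ => continuous_const.mul (hcj j))
        (continuous_const.mul hcl), Lc_sum hr k Finset.univ
        (F := fun j z => (c₁ : ℂ) * ((z j - p j) ^ a * h j.castSucc z))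
        (fun j _ => continuous_const.mul (hcj j))] at e1
      simp only [Lc_const_mul, hterm, mul_zero, Finset.sum_const_zero, zero_add] at e1
      rw [← e1]
      split_ifs with hk0
      · subst hk0
        have := Lc_W_pow_self (p := p) hr 0
        simpa using this
      · have := Lc_W_pow_ne (p := p) hr (l := 0) (k := k) (fun h => hk0 h.symm) hn
        simpa using this
    obtain ⟨x, hx⟩ := key_rec hr hn hD hrr hε0 a (c₁ : ℂ) m (hh (Fin.last n)) hk
    obtain ⟨x1, x2, x3⟩ := hx (a - 1) (by omega)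
    have x4 := x3 (Or.inr hm0)
    have hbound : ‖Lc p r (a - 1) H‖ ≤ M / (r ^ n) ^ (a - 1) :=
      Lc_bound hr (a - 1) fun θ => hcon _ (hrr (torusMap_mem_closedBall p hr.le θ))
    have h5 : x (a - 1) ≤ M / (r ^ n) ^ (a - 1) := by
      have h6 : ‖(c₁ : ℂ) * Lc p r (a - 1) H‖ = x (a - 1) := by
        rw [x1, Complex.norm_real, Real.norm_of_nonneg x2]
      rw [norm_mul, Complex.norm_real, Real.norm_of_nonneg hc₁0.le] at h6
      calc x (a - 1) = c₁ * ‖Lc p r (a - 1) H‖ := h6.symm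
        _ ≤ 1 * ‖Lc p r (a - 1) H‖ := by gcongr
        _ ≤ _ := by rw [one_mul]; exact hbound
    have hrn : 0 < (r ^ n) ^ (a - 1) := by positivity
    have h7 : (ε⁻¹) ^ (a - 1 + m) * (r ^ n) ^ (a - 1) ≤ M := by
      rw [le_div_iff₀ hrn] at h5
      exact (mul_le_mul_of_nonneg_right x4 hrn.le).trans h5
    -- compute `ε⁻¹ ^ (a - 1 + m)`
    have h8 : (ε⁻¹) ^ (a - 1 + m) = (2 : ℝ)⁻¹ ^ (a - 1 + m) * (2 / c₁) ^ (-E) * δ ^ (-E) := by
      have h9 : ε⁻¹ = (2 : ℝ)⁻¹ * t ^ (-((1 : ℝ) / m)) := by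
        rw [hε, mul_inv, Real.rpow_neg ht0.le]
      rw [h9, mul_pow, ← Real.rpow_natCast (t ^ (-((1 : ℝ) / m))), ← Real.rpow_mul ht0.le]
      have h10 : -((1 : ℝ) / m) * ((a - 1 + m : ℕ) : ℝ) = -E := by
        have h11 : ((a - 1 + m : ℕ) : ℝ) = m * n - 1 + m := by
          rw [Nat.cast_add, Nat.cast_sub ha1, ha]; push_cast; ring
        rw [h11, hE]
        field_simp
        ring
      rw [h10, ht, show 2 * δ / c₁ = (2 / c₁) * δ by ring,
        Real.mul_rpow (by positivity) hδ.le]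
      ring
    have h12 : C₀ * δ ^ (-E) ≤ M := by
      calc C₀ * δ ^ (-E) = (ε⁻¹) ^ (a - 1 + m) * (r ^ n) ^ (a - 1) := by
            rw [h8, hC₀]; ring
        _ ≤ M := h7
    have h13 : δ ^ (-κ) ≤ δ ^ (-E) :=
      Real.rpow_le_rpow_of_exponent_ge hδ hδ1.le (by linarith)
    have h14 : 0 < δ ^ (-κ) := by positivity
    have h15 : C₀ * δ ^ (-κ) ≤ C₀ / 2 * δ ^ (-κ) := by
      calc C₀ * δ ^ (-κ) ≤ C₀ * δ ^ (-E) := by gcongr
        _ ≤ M := h12
        _ = _ := hM
    nlinarith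

end Pool.Agent.Results.MP_ca0fc2_an.ExponentLowerBound
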