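import Mathlib
import Pool.Agent.H720R2.Core3

set_option autoImplicit false

/-!
# The corona constants of the balls are not bounded independently of the dimension

For every `δ < 1` and every `M`, in every sufficiently high dimension `n` there are finitely many
holomorphic functions `f_j` on the unit ball of `ℂⁿ` with `δ² < ∑ |f_j|² ≤ 1` such that every
holomorphic solution `h` of `∑ f_j h_j = 1` on the ball exceeds `M` somewhere.

The data are `f_0 = cos θ(g)` and `f_α = sin θ(g) c_α z^α`, where `g = n^{n/2} z_1 ⋯ z_n`, `θ` is a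
conformal map of the disc onto a thin strip, and `α` ranges over the multi-indices `< K` with some entry
`≥ a`; the weights `c_α` are Poisson weights of parameter `ε n`. The functions `f_α` lie in the ideal
`(z_1^a, …, z_n^a)`, which does not contain `g^{a-1}`, and `∑ |f_α|²` is close to `|sin θ(g)|²` for large
`n` because of the birthday paradox. The bound comes from the Taylor coefficient of `h_0` with
multi-index `(a-1, …, a-1)`.
-/

open Set Metric
open Pool.Agent.H720R2

namespace Pool.Agent.Results.MP_ca0fc2_an.NoDimensionFreeBound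

/-- The open unit ball of `ℂⁿ` for the Euclidean norm. -/
def Ball (n : ℕ) : Set (Fin n → ℂ) := {z | ∑ i, ‖z i‖ ^ 2 < 1}

/-- For every `0 < δ < 1` and every `M` there is a dimension `n₀` such that for every `n ≥ n₀` there
are finitely many holomorphic functions `f_j` on the unit ball of `ℂⁿ` with `δ² < ∑ |f_j|² ≤ 1`
for which every holomorphic solution `(h_j)` of `∑ f_j h_j = 1` on the ball satisfies
`|h_j(z)| > M` for some `j` and some `z` in the ball. -/
theorem result (δ M : ℝ) (hδ0 : 0 < δ) (hδ : δ < 1) :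
    ∃ n₀ : ℕ, ∀ n ≥ n₀, ∃ (N : ℕ) (f : Fin N → (Fin n → ℂ) → ℂ),
      (∀ j, DifferentiableOn ℂ (f j) (Ball n)) ∧
      (∀ z ∈ Ball n, ∑ j, ‖f j z‖ ^ 2 ≤ 1) ∧
      (∀ z ∈ Ball n, δ ^ 2 < ∑ j, ‖f j z‖ ^ 2) ∧
      ∀ h : Fin N → (Fin n → ℂ) → ℂ, (∀ j, DifferentiableOn ℂ (h j) (Ball n)) →
        (∀ z ∈ Ball n, ∑ j, f j z * h j z = 1) →
        ∃ j, ∃ z ∈ Ball n, M < ‖h j z‖ := by
  obtain ⟨n₀, hn₀⟩ := core hδ0.le hδ (le_max_right M 0)
  refine ⟨n₀, fun n hn => ?_⟩
  obtain ⟨-, ι, F0, F, r, η, hr, hη, hrB, hF0, hF, hlow, hup, hsol⟩ := hn₀ n hn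
  let e := ι.equivFin
  let f : Fin (ι.card + 1) → (Fin n → ℂ) → ℂ := Fin.cons F0 fun j => F (e.symm j)
  have hsum : ∀ (G : (Fin n → ℕ) → ℝ), ∑ j : Fin ι.card, G (e.symm j) = ∑ α ∈ ι, G α := by
    intro G
    rw [Equiv.sum_comp e.symm (fun x : ι => G x), Finset.sum_coe_sort]
  have hsum' : ∀ (G : ι → ℂ), ∑ j : Fin ι.card, G (e.symm j) = ∑ α : ι, G α := by
    intro G
    rw [Equiv.sum_comp e.symm]
  have hfs : ∀ z, ∑ j, ‖f j z‖ ^ 2 = ‖F0 z‖ ^ 2 + ∑ α ∈ ι, ‖F α z‖ ^ 2 := by
    intro z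
    rw [Fin.sum_univ_succ]
    simp only [f, Fin.cons_zero, Fin.cons_succ]
    rw [hsum fun α => ‖F α z‖ ^ 2]
  refine ⟨ι.card + 1, f, ?_, ?_, ?_, ?_⟩
  · intro j
    refine Fin.cases ?_ (fun j => ?_) j
    · exact hF0
    · exact hF _
  · intro z hz; rw [hfs]; exact hup z hz
  · intro z hz; rw [hfs]; exact hlow z hz
  · intro h hh hs
    classical
    let h' : (Fin n → ℕ) → (Fin n → ℂ) → ℂ := fun α =>
      if hα : α ∈ ι then h (Fin.succ (e ⟨α, hα⟩)) else fun _ => 0
    obtain ⟨z, hz, hM⟩ := hsol (Bn n) (isOpen_Bn n) hrB (h 0) h' (hh 0) (by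
      intro α
      by_cases hα : α ∈ ι
      · simp only [h', hα, dif_pos]; exact hh _
      · simp only [h', hα, dif_neg, not_false_eq_true]; exact differentiableOn_const _) (by
      intro z hz
      have h1 := hs z (hrB hz)
      rw [Fin.sum_univ_succ] at h1
      simp only [f, Fin.cons_zero, Fin.cons_succ] at h1
      have h2 : ∑ j : Fin ι.card, F (e.symm j) z * h j.succ z = ∑ α ∈ ι, F α z * h' α z := by
        calc ∑ j : Fin ι.card, F (e.symm j) z * h j.succ z
            = ∑ j : Fin ι.card, (fun α : ι => F α z * h' α z) (e.symm j) := by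
              refine Finset.sum_congr rfl fun j _ => ?_
              simp [h']
          _ = ∑ α : ι, F α z * h' α z := hsum' (fun α : ι => F α z * h' α z)
          _ = ∑ α ∈ ι, F α z * h' α z := Finset.sum_coe_sort ι fun α => F α z * h' α z
      rw [h2] at h1
      rw [h1]
      simpa using hη.le)
    exact ⟨0, z, hrB hz, (le_max_left M 0).trans_lt hM⟩

end Pool.Agent.Results.MP_ca0fc2_an.NoDimensionFreeBound
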